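import Pool.Agent.L7h3.GL.Stm

/-!
# Project GL, part FR: frames
-/

set_option autoImplicit false

namespace Pool.Agent.L7h53.GL

open Pool.Agent.L7h3.GL

variable {L : Type} [CompleteLattice L]

theorem gen_ge {b x : L} {T : Set L} (hx : Gen b T x) : b ≤ x := by
  unfold Gen at hx
  rw [hx]
  exact le_sup_left

theorem gen_le_tp {b x : L} {T : Set L} (hx : Gen b T x) : x ≤ tp b T := by
  unfold Gen at hx
  rw [hx]
  exact sup_le_sup_left (sSup_le_sSup fun a ha => ha.1) b

theorem gen_sup {b c x : L} {T : Set L} (hc : c ∈ T) (hx : Gen b T x) : Gen b T (x ⊔ c) := by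
  apply le_antisymm
  · apply sup_le
    · have h1 : x ≤ b ⊔ sSup {a | a ∈ T ∧ a ≤ x} := le_of_eq hx
      have h2 : sSup {a | a ∈ T ∧ a ≤ x} ≤ sSup {a | a ∈ T ∧ a ≤ x ⊔ c} := by
        apply sSup_le_sSup
        intro a ha
        exact ⟨ha.1, ha.2.trans le_sup_left⟩
      exact h1.trans (sup_le_sup_left h2 b)
    · exact (le_sSup (show c ∈ {a | a ∈ T ∧ a ≤ x ⊔ c} from ⟨hc, le_sup_right⟩)).trans le_sup_right
  · apply sup_le
    · exact (gen_ge hx).trans le_sup_left
    · exact sSup_le fun a ha => ha.2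

theorem sup_eq_of_covBy {z z' w : L} (h : z ⋖ w) (h' : z' ⋖ w) (hne : z ≠ z') : z ⊔ z' = w := by
  have h1 : z ⊔ z' ≤ w := sup_le h.le h'.le
  rcases h1.lt_or_eq with h2 | h2
  · exfalso
    have h3 : z ⊔ z' = z := by
      by_contra h4
      exact h.2 (lt_of_le_of_ne le_sup_left (Ne.symm h4)) h2
    have h5 : z' ≤ z := by
      rw [← h3]
      exact le_sup_right
    exact h'.2 (lt_of_le_of_ne h5 (Ne.symm hne)) h.lt
  · exact h2

theorem s_FR : S_FR := by
  intro L _ ρ hρ b T Z w hT hbw hw hZ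
  set t := tp b T with ht
  have hmono : ∀ x y : L, x ≤ y → ρ x ≤ ρ y := by
    intro x y h
    rcases h.lt_or_eq with h | h
    · exact (hρ.mono x y h).le
    · rw [h]
  obtain ⟨n, hn⟩ : ∃ n, ρ t - ρ w = n := ⟨_, rfl⟩
  induction n using Nat.strong_induction_on generalizing w Z with
  | _ n ih =>
    by_cases hwt : w = t
    · refine ⟨fun z => [z], ?_, ?_⟩
      · intro z hz
        obtain ⟨h1, h2, h3⟩ := hZ z hz
        refine ⟨⟨rfl, List.isChain_singleton _, ?_⟩, ?_⟩
        · intro y hy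
          have hyz : z = y := by simpa using hy
          rw [← hyz, ← hwt]
          exact h1
        · intro y hy
          have hyz : y = z := by simpa using hy
          rw [hyz]
          exact ⟨h3, le_rfl, not_le_of_gt h1.lt⟩
      · intro z hz z' hz' hne
        intro y hy hy'
        have e1 : y = z := by simpa using hy
        have e2 : y = z' := by simpa using hy'
        exact hne (e1.symm.trans e2)
    · have hwt2 : w < t := lt_of_le_of_ne (gen_le_tp hw) hwt
      obtain ⟨c, hcT, hcw⟩ : ∃ c ∈ T, ¬ c ≤ w := by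
        by_contra hcon
        push Not at hcon
        exact absurd (sup_le hbw (sSup_le hcon)) (not_le_of_gt hwt2)
      have hcov := hT c hcT
      have hww : w ⋖ w ⊔ c := hρ.sm b c w hcov hbw hcw
      have hw' : Gen b T (w ⊔ c) := gen_sup hcT hw
      have hz1 : ∀ z ∈ Z, z ⋖ z ⊔ c := by
        intro z hz
        obtain ⟨h1, h2, h3⟩ := hZ z hz
        exact hρ.sm b c z hcov h2 fun h => hcw (h.trans h1.le)
      have hz2 : ∀ z ∈ Z, ¬ w ≤ z ⊔ c := by
        intro z hz h
        obtain ⟨h1, h2, h3⟩ := hZ z hz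
        refine (hz1 z hz).2 h1.lt (lt_of_le_of_ne h ?_)
        intro he
        exact hcw (he ▸ le_sup_right)
      have hz3 : ∀ z ∈ Z, z ⊔ c ⋖ w ⊔ c := by
        intro z hz
        obtain ⟨h1, h2, h3⟩ := hZ z hz
        have h4 := hρ.sm z w (z ⊔ c) h1 le_sup_left (hz2 z hz)
        have e : z ⊔ c ⊔ w = w ⊔ c := by
          apply le_antisymm
          · exact sup_le (sup_le (h1.le.trans le_sup_left) le_sup_right) le_sup_left
          · exact sup_le le_sup_right (le_sup_right.trans le_sup_left)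
        rwa [e] at h4
      have hdec : ρ t - ρ (w ⊔ c) < n := by
        have h1 := hρ.mono w (w ⊔ c) hww.lt
        have h2 := hmono (w ⊔ c) t (gen_le_tp hw')
        omega
      obtain ⟨p, hp1, hp2⟩ := ih (ρ t - ρ (w ⊔ c)) hdec ((fun z => z ⊔ c) '' Z) (w ⊔ c)
        (hbw.trans le_sup_left) hw' (by
          rintro _ ⟨z, hz, rfl⟩
          obtain ⟨h1, h2, h3⟩ := hZ z hz
          exact ⟨hz3 z hz, h2.trans le_sup_left, gen_sup hcT h3⟩) rfl
      refine ⟨fun z => z :: p (z ⊔ c), ?_, ?_⟩
      · intro z hz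
        obtain ⟨h1, h2, h3⟩ := hZ z hz
        obtain ⟨⟨q1, q2, q3⟩, q4⟩ := hp1 (z ⊔ c) ⟨z, hz, rfl⟩
        obtain ⟨tl, htl⟩ := List.head?_eq_some_iff.1 q1
        refine ⟨⟨rfl, ?_, ?_⟩, ?_⟩
        · change List.IsChain (· ⋖ ·) (z :: p (z ⊔ c))
          rw [htl] at q2 ⊢
          exact List.isChain_cons_cons.2 ⟨hz1 z hz, q2⟩
        · intro y hy
          apply q3
          change (z :: p (z ⊔ c)).getLast? = some y at hy
          rw [htl] at hy ⊢
          rwa [List.getLast?_cons_cons] at hy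
        · intro y hy
          rcases List.mem_cons.1 hy with rfl | hy
          · exact ⟨h3, le_rfl, not_le_of_gt h1.lt⟩
          · obtain ⟨r1, r2, r3⟩ := q4 y hy
            refine ⟨r1, le_sup_left.trans r2, fun h => r3 (sup_le h (le_sup_right.trans r2))⟩
      · intro z hz z' hz' hne
        obtain ⟨h1, h2, h3⟩ := hZ z hz
        obtain ⟨h1', h2', h3'⟩ := hZ z' hz'
        have hsup := sup_eq_of_covBy h1 h1' hne
        have hne' : z ⊔ c ≠ z' ⊔ c := by
          intro he
          apply hz2 z hz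
          rw [← hsup]
          exact sup_le le_sup_left (he ▸ le_sup_left)
        have hd := hp2 (z ⊔ c) ⟨z, hz, rfl⟩ (z' ⊔ c) ⟨z', hz', rfl⟩ hne'
        have hmem : ∀ u ∈ Z, ∀ v ∈ Z, v ∉ p (u ⊔ c) := by
          intro u hu v hv hmem
          have h4 := ((hp1 (u ⊔ c) ⟨u, hu, rfl⟩).2 v hmem).2.1
          exact hcw ((le_sup_right.trans h4).trans (hZ v hv).1.le)
        intro y hy hy'
        rcases List.mem_cons.1 hy with e1 | hy1
        · rcases List.mem_cons.1 hy' with e2 | hy2
          · exact hne (e1.symm.trans e2)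
          · rw [e1] at hy2
            exact hmem z' hz' z hz hy2
        · rcases List.mem_cons.1 hy' with e2 | hy2
          · rw [e2] at hy1
            exact hmem z hz z' hz' hy1
          · exact hd hy1 hy2

end Pool.Agent.L7h53.GL
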